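import Pool.Agent.Lib.MP_f5167d_co.W.Fin

/-!
# MP_f5167d_co: the Kostochka-Pelsmajer-West conjecture

Every graph `G` is equitably `k`-choosable for every `k ≥ Δ(G) + 1`. The notions are those of the
problem file, with colours in an arbitrary type.
-/

set_option autoImplicit false

namespace Pool.Agent.Results.MP_f5167d_co.EquitableLists

/-- `L` is a `k`-list assignment: every `L v` is a set of exactly `k` colours. -/
def IsListAssignment {V C : Type} (k : ℕ) (L : V → Set C) : Prop :=
  ∀ v, (L v).Finite ∧ (L v).ncard = k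

/-- `c` is an equitable `L`-colouring: a proper colouring with `c v ∈ L v` for all `v`, in which every
colour is used on at most `⌈|V| / k⌉` vertices. -/
def IsEquitableColouring {V C : Type} [Fintype V] (G : SimpleGraph V) (k : ℕ) (L : V → Set C)
    (c : V → C) : Prop :=
  (∀ v, c v ∈ L v) ∧ (∀ u v, G.Adj u v → c u ≠ c v) ∧
    ∀ a : C, ({v | c v = a}.ncard : ℤ) ≤ ⌈(Fintype.card V : ℝ) / (k : ℝ)⌉

/-- `G` is equitably `k`-choosable. -/
def EquitablyChoosable {V : Type} [Fintype V] (G : SimpleGraph V) (k : ℕ) : Prop :=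
  ∀ (C : Type) (L : V → Set C), IsListAssignment k L → ∃ c, IsEquitableColouring G k L c

/-- Every finite graph `G` is equitably `k`-choosable for every `k ≥ Δ(G) + 1`. -/
theorem result (V : Type) [Fintype V] (G : SimpleGraph V) [DecidableRel G.Adj] (k : ℕ)
    (hk : G.maxDegree + 1 ≤ k) : EquitablyChoosable G k := by
  classical
  intro C L hL
  have hk1 : 1 ≤ k := by omega
  -- the colours are numbered
  have hfin : (⋃ v, L v).Finite := Set.finite_iUnion fun v => (hL v).1
  obtain ⟨e, he⟩ : ∃ e : C → ℕ, Set.InjOn e (⋃ v, L v) :=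
    Set.countable_iff_exists_injOn.mp hfin.countable
  let L' : V → Finset ℕ := fun v => (hL v).1.toFinset.image e
  have hsub : ∀ v, L v ⊆ ⋃ v, L v := fun v => Set.subset_iUnion L v
  have hL' : ∀ v, (L' v).card = k := by
    intro v
    have h1 : (L' v).card = (hL v).1.toFinset.card := by
      refine Finset.card_image_of_injOn ?_
      rw [Set.Finite.coe_toFinset]
      exact he.mono (hsub v)
    rw [h1, ← Set.ncard_eq_toFinset_card (L v) (hL v).1]
    exact (hL v).2
  have hdeg : ∀ v, (Pool.Agent.Lib.MP_f5167d_co.W.nb G v).card + 1 ≤ k := by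
    intro v
    have h1 : Pool.Agent.Lib.MP_f5167d_co.W.nb G v = G.neighborFinset v := by
      ext w
      simp
    rw [h1, SimpleGraph.card_neighborFinset_eq_degree]
    have h2 := G.degree_le_maxDegree v
    omega
  have hcard : Fintype.card V ≤ k * ((Fintype.card V + k - 1) / k) := by
    have h1 := Nat.div_add_mod (Fintype.card V + k - 1) k
    have h2 := Nat.mod_lt (Fintype.card V + k - 1) (show 0 < k by omega)
    omega
  obtain ⟨g, ⟨h1, h2⟩, h3⟩ := Pool.Agent.Lib.MP_f5167d_co.W.kpw V G L' k
    ((Fintype.card V + k - 1) / k) hL' hdeg hcard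
  have hg : ∀ v, ∃ a, a ∈ L v ∧ e a = g v := by
    intro v
    have h4 := h1 v
    obtain ⟨a, ha, hav⟩ := Finset.mem_image.mp h4
    exact ⟨a, (Set.Finite.mem_toFinset _).mp ha, hav⟩
  choose c hc hce using hg
  have hcc : ∀ u v, c u = c v ↔ g u = g v := by
    intro u v
    rw [← hce u, ← hce v]
    exact (he.eq_iff (hsub u (hc u)) (hsub v (hc v))).symm
  refine ⟨c, hc, fun u v huv h => h2 u v huv ((hcc u v).mp h), fun a => ?_⟩
  set q : ℕ := (Fintype.card V + k - 1) / k with hq
  have hceil : (q : ℤ) ≤ ⌈(Fintype.card V : ℝ) / (k : ℝ)⌉ := by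
    have hk0 : (0 : ℝ) < k := by exact_mod_cast hk1
    rw [Int.le_ceil_iff, lt_div_iff₀ hk0]
    have h4 : q * k ≤ Fintype.card V + k - 1 := Nat.div_mul_le_self _ _
    have h5 : q * k + 1 ≤ Fintype.card V + k := by omega
    have h6 : (q : ℝ) * k + 1 ≤ Fintype.card V + k := by exact_mod_cast h5
    push_cast
    linarith
  have h3' : ∀ b, (Finset.univ.filter (fun v => g v = b)).card ≤ q := h3
  have hle : {v | c v = a}.ncard ≤ q := by
    by_cases ha : ∃ v, c v = a
    · obtain ⟨v0, rfl⟩ := ha
      have h7 : {v | c v = c v0} = (↑(Finset.univ.filter (fun v => g v = g v0)) : Set V) := by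
        ext v
        simp only [Set.mem_ofPred_eq, Finset.coe_filter, Finset.mem_univ, true_and]
        exact hcc v v0
      rw [h7, Set.ncard_coe_finset]
      exact h3' _
    · have h8 : {v | c v = a} = ∅ := by
        ext v
        simp only [Set.mem_ofPred_eq, Set.mem_empty_iff_false, iff_false]
        exact fun h => ha ⟨v, h⟩
      rw [h8, Set.ncard_empty]
      exact Nat.zero_le _
  exact le_trans (by exact_mod_cast hle) hceil

end Pool.Agent.Results.MP_f5167d_co.EquitableLists
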